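import Pool.Agent.TH631.RC.Fin

/-!
# Uniform convergence actions that are factors of actions on closed invariant sets
-/

set_option autoImplicit false

open Filter Topology Set

namespace Pool.Agent.TH631.RK

open Pool.Agent.TH631.RC

variable {E : Type} [NormedAddCommGroup E] [InnerProductSpace ℝ E]
variable {G : Type} [Group G] {ρ : HypAction G E}
variable {X : Type} [MetricSpace X] {α : Action G X}

/-- The data: an equivariant map of a closed invariant set of the sphere. -/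
structure DataL (ρ : HypAction G E) (α : Action G X) (Λ : Set (Sp E)) (h : Sp E → X) : Prop where
  closed : IsClosed Λ
  inv : ∀ g, ∀ x ∈ Λ, F ρ g x ∈ Λ
  cont : ContinuousOn h Λ
  equi : ∀ g, ∀ x ∈ Λ, h (F ρ g x) = α.map g (h x)
  inf : (h '' Λ).Infinite

variable {Λ : Set (Sp E)} {h : Sp E → X}

theorem DataL.seq (hd : DataL ρ α Λ h) {x : ℕ → Sp E} {x₀ : Sp E} (hx : ∀ k, x k ∈ Λ)
    (hx₀ : x₀ ∈ Λ) (ht : Tendsto x atTop (𝓝 x₀)) : Tendsto (fun k => h (x k)) atTop (𝓝 (h x₀)) :=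
  (hd.cont x₀ hx₀).tendsto.comp (tendsto_nhdsWithin_iff.2 ⟨ht, Eventually.of_forall hx⟩)

theorem DataL.mem (hd : DataL ρ α Λ h) {x : ℕ → Sp E} {x₀ : Sp E} (hx : ∀ k, x k ∈ Λ)
    (ht : Tendsto x atTop (𝓝 x₀)) : x₀ ∈ Λ :=
  hd.closed.mem_of_tendsto ht (Eventually.of_forall hx)

theorem DataL.finite [FiniteDimensional ℝ E] [CompactSpace X] (hd : DataL ρ α Λ h)
    (hα : IsConvergence α) (R : ℝ) : {g : G | T ρ g ≤ R}.Finite := by
  by_contra hinf
  have hinf' : {g : G | T ρ g ≤ R}.Infinite := hinf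
  set e := hinf'.natEmbedding
  have hinj : Function.Injective fun n => (e n : G) := fun m n h => e.injective (Subtype.ext h)
  have hcof : Tendsto (fun n => (e n : G)) atTop cofinite := by
    rw [← Nat.cofinite_eq_atTop]
    exact hinj.tendsto_cofinite
  obtain ⟨φ, hφ, b, q, hbq⟩ := hα _ hcof
  set g₁ : ℕ → G := fun n => (e (φ n) : G) with hg₁
  obtain ⟨a, -, ψ, hψ, ha⟩ := isCompact_univ.tendsto_subseq (x := fun n => α.map (g₁ n) q)
    (fun n => mem_univ _)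
  -- a third value
  obtain ⟨c, ⟨z, hzΛ, rfl⟩, hcab⟩ := (hd.inf.sdiff (Set.toFinite {a, b})).nonempty
  have hca : h z ≠ a := fun h0 => hcab (by simp [h0])
  have hcb : h z ≠ b := fun h0 => hcab (by simp [h0])
  set g₂ : ℕ → G := fun n => g₁ (ψ n) with hg₂
  have hb2 : ∀ V ∈ 𝓝 b, ∀ W ∈ 𝓝 q, ∀ᶠ n in atTop, ∀ x, x ∉ W → α.map (g₂ n) x ∈ V :=
    fun V hV W hW => hψ.tendsto_atTop.eventually (hbq V hV W hW)
  obtain ⟨zs, -, θ, hθ, hzs⟩ := (isCompact_univ (X := Sp E)).tendsto_subseq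
    (x := fun n => F ρ (g₂ n)⁻¹ z) (fun n => mem_univ _)
  have hzn : ∀ n, F ρ (g₂ (θ n))⁻¹ z ∈ Λ := fun n => hd.inv _ _ hzΛ
  have hzsΛ : zs ∈ Λ := hd.mem hzn hzs
  -- the limit is over `q`
  have hq : h zs = q := by
    by_contra hne
    obtain ⟨V, W, hV, hW, hVW⟩ := t2_separation_nhds hne
    have h1 : ∀ᶠ n in atTop, h (F ρ (g₂ (θ n))⁻¹ z) ∈ V :=
      (hd.seq hzn hzsΛ hzs).eventually hV
    have h2 := hθ.tendsto_atTop.eventually
      (hb2 {h z}ᶜ (isOpen_compl_singleton.mem_nhds (by simpa using hcb.symm)) W hW)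
    obtain ⟨n, hn1, hn2⟩ := (h1.and h2).exists
    have h3 := hn2 _ (fun hw => (Set.disjoint_left.1 hVW) hn1 hw)
    rw [← hd.equi _ _ (hzn n), F_inv] at h3
    exact h3 rfl
  have hF : Tendsto (fun n => F ρ (g₂ (θ n)) zs) atTop (𝓝 z) := by
    refine equicont (R := R) (g := fun n => g₂ (θ n)) (fun n => ?_) hzs (fun n => F_inv _ _)
    exact (e (φ (ψ (θ n)))).2
  have h1 : Tendsto (fun n => h (F ρ (g₂ (θ n)) zs)) atTop (𝓝 (h z)) :=
    hd.seq (fun n => hd.inv _ _ hzsΛ) hzΛ hF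
  have h2 : Tendsto (fun n => h (F ρ (g₂ (θ n)) zs)) atTop (𝓝 a) := by
    have := ha.comp hθ.tendsto_atTop
    refine this.congr fun n => ?_
    simp only [Function.comp, hd.equi _ _ hzsΛ, hq, hg₂]
  exact hca (tendsto_nhds_unique h1 h2)

theorem DataL.top [FiniteDimensional ℝ E] [CompactSpace X] (hd : DataL ρ α Λ h)
    (hα : IsConvergence α) {g : ℕ → G} (hg : Tendsto g atTop cofinite) :
    Tendsto (fun k => T ρ (g k)) atTop atTop :=
  tendsto_cofinite_of_finite hg (hd.finite hα)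

/-- A conical point has at most one preimage, and its light vector can be contracted. -/
theorem DataL.conical [FiniteDimensional ℝ E] [CompactSpace X] (hd : DataL ρ α Λ h)
    (hα : IsConvergence α) {y : X} (hy : Conical α y) :
    (∀ x ∈ Λ, ∀ x' ∈ Λ, h x = y → h x' = y → x = x') ∧
      ∀ x ∈ Λ, h x = y → ∃ g, tt ρ g x < 1 / 2 := by
  obtain ⟨g, a, b, hg, hab, hya, hwb⟩ := hy
  obtain ⟨φ, hφ, p, q, hL⟩ := exists_lim (hd.top hα hg)
  have hya' : Tendsto (fun k => α.map ((g ∘ φ) k) y) atTop (𝓝 a) := hya.comp hφ.tendsto_atTop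
  have hwb' : ∀ w, w ≠ y → Tendsto (fun k => α.map ((g ∘ φ) k) w) atTop (𝓝 b) :=
    fun w hw => (hwb w hw).comp hφ.tendsto_atTop
  have hpp : p ∈ Λ ∧ h p = b := by
    obtain ⟨c, ⟨w, hwΛ, rfl⟩, hc⟩ := (hd.inf.sdiff (Set.toFinite {y, h q})).nonempty
    have h1 : h w ≠ y := fun h0 => hc (by simp [h0])
    have h2 : w ≠ q := fun h0 => hc (by simp [h0])
    have h4 := hL.attract (tendsto_const_nhds (x := w)) h2
    have hm : ∀ k, F ρ ((g ∘ φ) k) w ∈ Λ := fun k => hd.inv _ _ hwΛ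
    have hpΛ : p ∈ Λ := hd.mem hm h4
    have h3 := hd.seq hm hpΛ h4
    refine ⟨hpΛ, tendsto_nhds_unique h3 ((hwb' _ h1).congr fun k => ?_)⟩
    rw [hd.equi _ _ hwΛ]
  obtain ⟨hpΛ, hp⟩ := hpp
  have hx : ∀ x ∈ Λ, h x = y → x = q := by
    intro x hxΛ hx
    by_contra hne
    have h3 := hd.seq (fun k => hd.inv _ _ hxΛ) hpΛ (hL.attract (tendsto_const_nhds (x := x)) hne)
    refine hab ((tendsto_nhds_unique (hya'.congr fun k => ?_) h3).trans hp)
    rw [hd.equi _ _ hxΛ, hx]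
  refine ⟨fun x hxΛ x' hxΛ' h1 h2 => (hx x hxΛ h1).trans (hx x' hxΛ' h2).symm,
    fun x hxΛ hxy => ?_⟩
  obtain ⟨c, -, ψ, hψ, hc⟩ := (isCompact_univ (X := Sp E)).tendsto_subseq
    (x := fun n => F ρ ((g ∘ φ) n) x) (fun n => mem_univ _)
  have hm : ∀ k, F ρ ((g ∘ φ) (ψ k)) x ∈ Λ := fun k => hd.inv _ _ hxΛ
  have hcΛ : c ∈ Λ := hd.mem hm hc
  have hca : h c = a := by
    have h3 := hd.seq hm hcΛ hc
    refine tendsto_nhds_unique h3 ((hya'.comp hψ.tendsto_atTop).congr fun k => ?_)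
    rw [hd.equi _ _ hxΛ, hxy]
    rfl
  have hcp : c ≠ p := fun h0 => hab (by rw [← hca, h0, hp])
  have h4 := (hL.comp hψ.tendsto_atTop).shrink (x := x) hc hcp
  obtain ⟨k, hk⟩ := (h4.eventually (gt_mem_nhds (show (0 : ℝ) < 1 / 2 by norm_num))).exists
  exact ⟨_, hk⟩

/-- surjectivity -/
theorem DataL.surj [FiniteDimensional ℝ E] [CompactSpace X]
    (hd : DataL ρ α Λ h) (hα : IsConvergence α) (hcon : ∀ y, Conical α y) (z : X) :
    z ∈ h '' Λ := by
  by_contra hz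
  have hYc : IsCompact (h '' Λ) := (hd.closed.isCompact).image_of_continuousOn hd.cont
  have hinv : ∀ g : G, ∀ y ∈ h '' Λ, α.map g y ∈ h '' Λ := by
    rintro g _ ⟨x, hx, rfl⟩
    exact ⟨F ρ g x, hd.inv g x hx, hd.equi g x hx⟩
  obtain ⟨g, a, b, hg, hab, hza, hwb⟩ := hcon z
  obtain ⟨φ, hφ, p, q, hpq⟩ := hα g hg
  have hpt : ∀ w, w ≠ q → Tendsto (fun k => α.map (g (φ k)) w) atTop (𝓝 p) := by
    intro w hw
    rw [tendsto_def]
    intro V hV
    filter_upwards [hpq V hV {w}ᶜ (isOpen_compl_singleton.mem_nhds (by simpa using hw.symm))]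
      with n hn
    exact hn w (by simp)
  have hpb : p = b := by
    obtain ⟨w, hwY, hw⟩ := (hd.inf.sdiff (Set.toFinite {q})).nonempty
    have h1 : w ≠ q := fun h0 => hw (by simp [h0])
    have h2 : w ≠ z := fun h0 => hz (h0 ▸ hwY)
    exact tendsto_nhds_unique (hpt w h1) ((hwb w h2).comp hφ.tendsto_atTop)
  have hqz : q = z := by
    by_contra hne
    have h1 := hpt z (fun h0 => hne h0.symm)
    exact hab ((tendsto_nhds_unique (hza.comp hφ.tendsto_atTop) h1).trans hpb)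
  have hsub : h '' Λ ⊆ {b} := by
    intro y hy
    by_contra hyb
    have hV : ({y}ᶜ : Set X) ∈ 𝓝 p :=
      isOpen_compl_singleton.mem_nhds (by
        rw [hpb]; simpa using fun h0 => hyb (by simp [h0]))
    have hW : (h '' Λ)ᶜ ∈ 𝓝 q := by
      rw [hqz]; exact hYc.isClosed.isOpen_compl.mem_nhds hz
    obtain ⟨n, hn⟩ := (hpq _ hV _ hW).exists
    have h1 := hn (α.map (g (φ n))⁻¹ y) (fun h0 => h0 (hinv _ y hy))
    rw [act_inv'] at h1
    exact h1 rfl
  exact hd.inf ((Set.toFinite {b}).subset hsub)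

/-- The closed convex hull of `Λ` in hyperbolic space. -/
def hull (Λ : Set (Sp E)) : Set (ℝ × E) :=
  {v | v ∈ HypSpace E ∧ ∀ w : ℝ × E, (∀ x ∈ Λ, 0 ≤ lor w (light (x : E))) → 0 ≤ lor w v}

theorem hull_inv (hinv : ∀ g, ∀ x ∈ Λ, F ρ g x ∈ Λ) (g : G) {v : ℝ × E} (hv : v ∈ hull Λ) :
    ρ.map g v ∈ hull Λ := by
  refine ⟨map_mem hv.1 g, fun w hw => ?_⟩
  have h1 : lor w (ρ.map g v) = lor (ρ.map g⁻¹ w) v := by
    rw [lor_adj, inv_inv]
  rw [h1]
  refine hv.2 _ fun x hx => ?_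
  rw [lor_adj, inv_inv, map_light, lor_smul_right]
  exact mul_nonneg (tt_pos g x).le (hw _ (hinv g x hx))

theorem hull_convex {v w : ℝ × E} (hv : v ∈ hull Λ) (hw : w ∈ hull Λ) {s t : ℝ} (hs : 0 ≤ s)
    (ht : 0 ≤ t) (h : s • v + t • w ∈ HypSpace E) : s • v + t • w ∈ hull Λ := by
  refine ⟨h, fun u hu => ?_⟩
  rw [lor_add_right, lor_smul_right, lor_smul_right]
  exact add_nonneg (mul_nonneg hs (hv.2 u hu)) (mul_nonneg ht (hw.2 u hu))

theorem hyp_closed : IsClosed (HypSpace E) := by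
  have e : HypSpace E = {v : ℝ × E | lor v v = 1} ∩ {v | 0 ≤ v.1} := by
    ext v
    constructor
    · intro hv
      exact ⟨hv.1, hv.2.le⟩
    · rintro ⟨h1, h2⟩
      refine ⟨h1, lt_of_le_of_ne h2 fun h0 => ?_⟩
      have h3 : lor v v = 1 := h1
      simp only [lor, ← h0, real_inner_self_eq_norm_sq] at h3
      nlinarith [sq_nonneg ‖v.2‖]
  rw [e]
  refine IsClosed.inter ?_ ?_
  · exact isClosed_eq (continuous_lor.comp (continuous_id.prodMk continuous_id)) continuous_const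
  · exact isClosed_le continuous_const continuous_fst

theorem hull_closed : IsClosed (hull Λ) := by
  have e : hull Λ = HypSpace E ∩ ⋂ w : {w : ℝ × E // ∀ x ∈ Λ, 0 ≤ lor w (light (x : E))},
      {v | 0 ≤ lor w.1 v} := by
    ext v
    simp only [hull, mem_ofPred_eq, mem_inter_iff, mem_iInter, Subtype.forall]
  rw [e]
  refine hyp_closed.inter (isClosed_iInter fun w => ?_)
  exact isClosed_le continuous_const (continuous_lor.comp (continuous_const.prodMk continuous_id))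

theorem hull_nonempty {x y : Sp E} (hx : x ∈ Λ) (hy : y ∈ Λ) (hxy : x ≠ y) :
    (hull Λ).Nonempty := by
  have hp := one_sub_inner_pos hxy
  set k := 1 - inner ℝ (x : E) (y : E) with hk
  set s := (Real.sqrt (2 * k))⁻¹ with hs
  have hs0 : 0 < s := by positivity
  have hs2 : s * s * (2 * k) = 1 := by
    have h1 := Real.mul_self_sqrt (show 0 ≤ 2 * k by positivity)
    have h2 : Real.sqrt (2 * k) ≠ 0 := by positivity
    rw [hs]
    field_simp
    nlinarith
  refine ⟨s • light (x : E) + s • light (y : E), ⟨?_, ?_⟩, fun w hw => ?_⟩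
  · rw [lor_add_left, lor_add_right, lor_add_right]
    simp only [lor_smul_left, lor_smul_right, lor_light, inner_self_one]
    rw [real_inner_comm (x : E) (y : E), ← hk]
    nlinarith
  · simp only [light, Prod.fst_add, Prod.smul_fst, smul_eq_mul]
    positivity
  · rw [lor_add_right, lor_smul_right, lor_smul_right]
    exact add_nonneg (mul_nonneg hs0.le (hw x hx)) (mul_nonneg hs0.le (hw y hy))

theorem cut {x : Sp E} (hΛ : IsClosed Λ) [FiniteDimensional ℝ E] (hx : x ∉ Λ) :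
    ∃ w : ℝ × E, (∀ y ∈ Λ, 0 ≤ lor w (light (y : E))) ∧ lor w (light (x : E)) < 0 := by
  have hcont : Continuous fun w : Sp E => 1 - inner ℝ (w : E) (x : E) := by fun_prop
  obtain ⟨κ, hκ, hκK⟩ := hΛ.isCompact.exists_forall_le' hcont.continuousOn (a := 0)
    (fun w hw => one_sub_inner_pos fun h0 => hx (h0 ▸ hw))
  refine ⟨(1 - κ, (x : E)), fun y hy => ?_, ?_⟩
  · have h1 := hκK y hy
    simp only [lor, light]
    rw [real_inner_comm]
    linarith
  · simp only [lor, light]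
    rw [inner_self_one]
    linarith

theorem DataL.cocompact [FiniteDimensional ℝ E] [CompactSpace X]
    (hd : DataL ρ α Λ h) (hα : IsConvergence α) (hcon : ∀ y, Conical α y) :
    ∃ K : Set (ℝ × E), K ⊆ hull Λ ∧ IsCompact K ∧ ∀ v ∈ hull Λ, ∃ g : G, ρ.map g v ∈ K := by
  classical
  -- local reductions
  have hloc : ∀ x : Sp E, ∃ O : Set (ℝ × E), IsOpen O ∧ light (x : E) ∈ O ∧
      ∀ v ∈ hull Λ, (v.1)⁻¹ • v ∈ O → ∃ g : G, (ρ.map g v).1 ≤ v.1 / 2 := by
    intro x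
    by_cases hx : x ∈ Λ
    · obtain ⟨g, hg⟩ := (hd.conical hα (hcon (h x))).2 x hx rfl
      obtain ⟨O, h1, h2, h3⟩ := reducible_of_tt hg 1
      exact ⟨O, h1, h2, fun v hv hvO => h3 v hv.1 hvO (by simp)⟩
    · obtain ⟨w, hw, hwx⟩ := cut hd.closed hx
      refine ⟨{u | lor w u < 0}, ?_, hwx, fun v hv hvO => ?_⟩
      · exact isOpen_lt (continuous_lor.comp (continuous_const.prodMk continuous_id))
          continuous_const
      · exfalso
        have h1 : lor w ((v.1)⁻¹ • v) < 0 := hvO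
        rw [lor_smul_right] at h1
        have h2 := hv.2 w hw
        have h3 : 0 < (v.1)⁻¹ := inv_pos.2 hv.1.2
        nlinarith
  choose O hO hxO hRed using hloc
  obtain ⟨t, -, ht⟩ := (isCompact_univ (X := Sp E)).elim_nhds_subcover
    (fun x => {x' : Sp E | light (x' : E) ∈ O x})
    (fun x _ => ((hO x).preimage continuous_light).mem_nhds (hxO x))
  have hcover : range (fun x : Sp E => light (x : E)) ⊆ ⋃ x ∈ t, O x := by
    rintro _ ⟨x', rfl⟩
    obtain ⟨x, hx, hx'⟩ := mem_iUnion₂.1 (ht (mem_univ x'))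
    exact mem_iUnion₂.2 ⟨x, hx, hx'⟩
  have hopen : IsOpen (⋃ x ∈ t, O x) := isOpen_biUnion fun x _ => hO x
  obtain ⟨δ, hδ, hthick⟩ :=
    (isCompact_range (continuous_light (E := E))).exists_thickening_subset_open hopen hcover
  have hR : ∀ v ∈ hull Λ, ∃ g : G, (ρ.map g v).1 ≤ max 1 (1 / δ) := by
    intro v hv
    by_contra hcon
    push Not at hcon
    have hbdd : BddBelow (range fun g : G => (ρ.map g v).1) :=
      ⟨1, by rintro _ ⟨g, rfl⟩; exact hyp_one_le (map_mem hv.1 g)⟩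
    have hm : 1 ≤ ⨅ g : G, (ρ.map g v).1 := le_ciInf fun g => hyp_one_le (map_mem hv.1 g)
    obtain ⟨g, hg⟩ := exists_lt_of_ciInf_lt
      (show (⨅ g : G, (ρ.map g v).1) < 2 * ⨅ g : G, (ρ.map g v).1 by linarith)
    have hg1 := hcon g
    rw [max_lt_iff] at hg1
    obtain ⟨x', hx'⟩ := close_light (map_mem hv.1 g) hδ hg1.1 hg1.2
    have h1 : ((ρ.map g v).1)⁻¹ • ρ.map g v ∈ ⋃ x ∈ t, O x :=
      hthick (Metric.mem_thickening_iff.2 ⟨_, ⟨x', rfl⟩, hx'⟩)
    obtain ⟨x, hx, hxO'⟩ := mem_iUnion₂.1 h1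
    obtain ⟨g', hg'⟩ := hRed x _ (hull_inv hd.inv g hv) hxO'
    rw [← ρ.map_mul] at hg'
    have h2 := ciInf_le hbdd (g' * g)
    linarith
  refine ⟨hull Λ ∩ {v | v.1 ≤ max 1 (1 / δ)}, inter_subset_left, ?_, fun v hv => ?_⟩
  · refine Metric.isCompact_of_isClosed_isBounded
      (hull_closed.inter (isClosed_le continuous_fst continuous_const)) ?_
    refine (Metric.isBounded_closedBall (x := (0 : ℝ × E)) (r := max 1 (1 / δ))).subset ?_
    rintro v ⟨hv, hv2⟩
    have hv2' : v.1 ≤ max 1 (1 / δ) := hv2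
    rw [mem_closedBall_zero_iff, Prod.norm_def, max_le_iff]
    constructor
    · rw [Real.norm_eq_abs, abs_of_pos hv.1.2]; exact hv2'
    · exact (hyp_lt hv.1).le.trans hv2'
  · obtain ⟨g, hg⟩ := hR v hv
    exact ⟨g, hull_inv hd.inv g hv, hg⟩

end Pool.Agent.TH631.RK
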