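import Pool.Agent.TH631.RC.Stmt
import Pool.Agent.TH631.RK.Cvx

/-!
# Geometric actions on convex sets: definitions for the statement
-/

set_option autoImplicit false

open Filter Topology Set

namespace Pool.Agent.TH631.RK

open Pool.Agent.TH631.RC

variable {n : ℕ} {G : Type} [Group G]

/-- Uniform convergence action: a convergence action for which every point is conical. -/
def IsUniform {X : Type} [TopologicalSpace X] (α : Action G X) : Prop :=
  IsConvergence α ∧ ∀ y, Conical α y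

/-- The set `Λ` of points at infinity is closed and invariant: if `g` maps the point `x` of `Λ` to the
point `x'` at infinity, then `x'` is in `Λ`. -/
def IsInvariant (ρ : HypAct G n) (Λ : Set (Sph n)) : Prop :=
  IsClosed Λ ∧ ∀ (g : G) (x x' : Sph n) (c : ℝ), 0 < c → ρ.map g (ray x) = c • ray x' →
    x ∈ Λ → x' ∈ Λ

/-- The map `h` from `Λ` to `X` is equivariant: if `g` maps `x` to `x'`, then `h x' = g (h x)`. -/
def IsEquivariantOn {X : Type} [TopologicalSpace X] (ρ : HypAct G n) (α : Action G X)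
    (Λ : Set (Sph n)) (h : Λ → X) : Prop :=
  ∀ (g : G) (x x' : Λ) (c : ℝ), 0 < c → ρ.map g (ray x.1) = c • ray x'.1 → h x' = α.map g (h x)

/-- `C` is a closed convex subset of hyperbolic space: with `v` and `w` it contains the geodesic
segment between them, that is all points `s v + t w`, `s, t ≥ 0`, of hyperbolic space. -/
def IsConvexSet (C : Set (Mink n)) : Prop :=
  C ⊆ Hyp n ∧ IsClosed C ∧ ∀ v ∈ C, ∀ w ∈ C, ∀ s t : ℝ, 0 ≤ s → 0 ≤ t →
    s • v + t • w ∈ Hyp n → s • v + t • w ∈ C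

/-- The action on `C` is geometric: `C` is invariant, and the action (by isometries) is properly
discontinuous and cocompact. -/
def IsGeometric (ρ : HypAct G n) (C : Set (Mink n)) : Prop :=
  (∀ g, ∀ v ∈ C, ρ.map g v ∈ C) ∧ IsProper ρ ∧
    ∃ K : Set (Mink n), K ⊆ C ∧ IsCompact K ∧ ∀ v ∈ C, ∃ g, ρ.map g v ∈ K

theorem main {X : Type} [MetricSpace X] [CompactSpace X] (α : Action G X) (hα : IsUniform α)
    (ρ : HypAct G n) (Λ : Set (Sph n)) (hΛ : IsInvariant ρ Λ) (h : Λ → X) (hc : Continuous h)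
    (hinf : (range h).Infinite) (he : IsEquivariantOn ρ α Λ h) :
    IsHomeomorph h ∧ ∃ C : Set (Mink n), C.Nonempty ∧ IsConvexSet C ∧ IsGeometric ρ C := by
  classical
  have : FiniteDimensional ℝ (Euc n) := by
    have : Module.finrank ℝ (EuclideanSpace ℝ (Fin (n + 1))) = n + 1 := by simp
    refine Module.finite_of_finrank_pos ?_
    change 0 < Module.finrank ℝ (EuclideanSpace ℝ (Fin (n + 1)))
    omega
  obtain ⟨x₀, hx₀⟩ := hinf.nonempty
  let L : Set (Sp (Euc n)) := Λ
  let h' : Sp (Euc n) → X := fun x => if hx : x ∈ L then h ⟨x, hx⟩ else x₀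
  have hh : ∀ (x : Sp (Euc n)) (hx : x ∈ L), h' x = h ⟨x, hx⟩ := fun x hx => dif_pos hx
  have hinv : ∀ g, ∀ x ∈ L, F ρ.to g x ∈ L := fun g x hx =>
    hΛ.2 g x (F ρ.to g x) (tt ρ.to g x) (tt_pos g x) (map_light (ρ := ρ.to) g x) hx
  have hcont : ContinuousOn h' L := by
    rw [continuousOn_iff_continuous_domRestrict]
    have e : L.domRestrict h' = h := by
      funext x
      exact hh x.1 x.2
    rw [e]
    exact hc
  have himg : h' '' L = range h := by
    ext y
    constructor
    · rintro ⟨x, hx, rfl⟩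
      exact ⟨⟨x, hx⟩, (hh x hx).symm⟩
    · rintro ⟨x, rfl⟩
      exact ⟨x.1, x.2, hh x.1 x.2⟩
  have hd : DataL ρ.to α L h' := by
    refine ⟨hΛ.1, hinv, hcont, fun g x hx => ?_, by rw [himg]; exact hinf⟩
    rw [hh x hx, hh _ (hinv g x hx)]
    exact he g ⟨x, hx⟩ ⟨F ρ.to g x, hinv g x hx⟩ (tt ρ.to g x) (tt_pos g x)
      (map_light (ρ := ρ.to) g x)
  refine ⟨?_, hull L, ?_, ⟨fun v hv => hv.1, hull_closed, fun v hv w hw s t hs ht h1 =>
    hull_convex hv hw hs ht h1⟩, fun g v hv => hull_inv hinv g hv, properly (hd.finite hα.1),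
    hd.cocompact hα.1 hα.2⟩
  · have hcomp : CompactSpace Λ := isCompact_iff_compactSpace.1
      (show IsCompact L from hd.closed.isCompact)
    rw [isHomeomorph_iff_continuous_bijective]
    refine ⟨hc, fun x x' hxx => ?_, fun z => ?_⟩
    · have h1 := (hd.conical hα.1 (hα.2 (h x))).1 x.1 x.2 x'.1 x'.2 (hh x.1 x.2)
        ((hh x'.1 x'.2).trans hxx.symm)
      exact Subtype.ext h1
    · have h1 := hd.surj hα.1 hα.2 z
      rw [himg] at h1
      exact h1
  · obtain ⟨_, ⟨x, rfl⟩, _, ⟨y, rfl⟩, hxy⟩ := hinf.nontrivial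
    exact hull_nonempty (Λ := L) x.2 y.2 fun h0 => hxy (by
      have h1 : x = y := Subtype.ext h0
      rw [h1])

end Pool.Agent.TH631.RK
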